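import Pool.Agent.TH72.SR.Final

/-!
# The Bloch–Kato rank formula for Hilbert modular forms and base change to totally real fields in
which all small primes split completely
-/

set_option autoImplicit false

open NumberField Pool.Agent.TH965.St Pool.Agent.TH349.ORP Pool.Agent.TH72.SR

namespace Pool.Agent.Results.MP_6e2fc3_nt.SplitBaseChange

/-- the automorphisms of `K` commute -/
def Commuting (K : Type) [Field K] : Prop :=
  ∀ (σ τ : K ≃+* K) (x : K), σ (τ x) = τ (σ x)

/-- `K` is a totally real abelian number field with `K ∩ F = ℚ` -/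
def Adm (F K : IntermediateField ℚ Qb) : Prop :=
  NumberField K ∧ IsGalois ℚ K ∧ Commuting K ∧ Nonempty (K →+* ℝ) ∧ K ⊓ F = ⊥

/-- Triples `x = (F, g, λ)` as in the question (`F` a totally real number field, `g` a Hilbert newform
over `F`, `λ` a finite place of its field of eigenvalues), and the facts used about them. -/
structure Triples where
  /-- the triples `(F, g, λ)` -/
  X : Type
  /-- the totally real field `F` -/
  fld : X → IntermediateField ℚ Qb
  /-- the dimension of the Bloch–Kato Selmer group `H¹_f(F, V_{g,λ})` -/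
  sel : X → ℕ
  /-- the order of vanishing of `L(g, s)` at `s = 0` -/
  ord : X → ℕ
  /-- the base change of `g` to `FK`, `K` totally real and abelian over `ℚ` with `K ∩ F = ℚ` -/
  bc : X → IntermediateField ℚ Qb → X
  /-- `F` is a number field -/
  nf : ∀ x, NumberField (fld x)
  /-- the base change is a form over `FK` -/
  fld_bc : ∀ x K, Adm (fld x) K → fld (bc x K) = fld x ⊔ K
  /-- base change to `F` itself -/
  bc_bot : ∀ x, bc x ⊥ = x
  /-- Selmer groups and orders of vanishing of base changes are given by the permutation characters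
  (Shapiro's lemma and Artin formalism) -/
  additive : ∀ (x : X) (n n' : ℕ) (K : Fin n → IntermediateField ℚ Qb)
    (K' : Fin n' → IntermediateField ℚ Qb),
    (∀ a, Adm (fld x) (K a)) → (∀ b, Adm (fld x) (K' b)) →
    (∀ g : GQ, ∑ a, perm (K a) g = ∑ b, perm (K' b) g) →
    ∑ a, sel (bc x (K a)) = ∑ b, sel (bc x (K' b)) ∧
    ∑ a, ord (bc x (K a)) = ∑ b, ord (bc x (K' b))

/-- the Bloch–Kato rank formula for the triple `x` -/
def Triples.Formula (T : Triples) (x : T.X) : Prop := T.sel x = T.ord x

/-- for every triple `x` over a subfield of `F`: the rank formula for the base changes to the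
composites with `K₁, ..., K_r` implies the rank formula for `x` -/
def Suffices (F : IntermediateField ℚ Qb) {r : ℕ} (K : Fin r → IntermediateField ℚ Qb) : Prop :=
  ∀ (T : Triples) (x : T.X), T.fld x ≤ F → (∀ a, T.Formula (T.bc x (K a))) → T.Formula x

theorem adm_of {N : ℕ} {F F' K : IntermediateField ℚ Qb} (h : SplitReal N F K) (hF : F' ≤ F) :
    Adm F' K := by
  refine ⟨h.1, h.2.1, h.2.2.2.2.1.1, h.2.2.2.2.2.1, ?_⟩
  rw [eq_bot_iff, ← h.2.2.2.1]
  exact inf_le_inf_left K hF

theorem adm_bot (F : IntermediateField ℚ Qb) : Adm F ⊥ := by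
  refine ⟨nf_bot, ?_, ?_, ?_, bot_inf_eq F⟩
  · have h : (⊥ : IntermediateField ℚ Qb).fixingSubgroup.Normal := by
      rw [IntermediateField.fixingSubgroup_bot]; infer_instance
    exact (InfiniteGalois.normal_iff_isGalois ⊥).1 h
  · intro s t x
    obtain ⟨q, hq⟩ := IntermediateField.mem_bot.1 x.2
    have e : x = ((q : ℚ) : (⊥ : IntermediateField ℚ Qb)) := by
      apply Subtype.ext
      rw [← hq, eq_ratCast]
      simp
    rw [e]
    simp only [map_ratCast]
  · exact real_emb (N := 0) bot_le

theorem main (T : Triples) (x : T.X) {n n' : ℕ} {K : Fin n → IntermediateField ℚ Qb}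
    {K' : Fin n' → IntermediateField ℚ Qb} (h1 : ∀ a, Adm (T.fld x) (K a))
    (h2 : ∀ b, Adm (T.fld x) (K' b))
    (h5 : ∀ g : GQ, ∑ a, perm (K a) g = 1 + ∑ b, perm (K' b) g)
    (h3 : ∀ a, T.Formula (T.bc x (K a))) (h4 : ∀ b, T.Formula (T.bc x (K' b))) :
    T.Formula x := by
  let K1 : Fin (n' + 1) → IntermediateField ℚ Qb := Fin.cons ⊥ K'
  have a1 : ∀ b, Adm (T.fld x) (K1 b) := by
    intro b
    refine Fin.cases ?_ (fun i => ?_) b
    · exact adm_bot _
    · exact h2 i
  obtain ⟨b1, b2⟩ := T.additive x n (n' + 1) K K1 h1 a1 (by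
    intro g
    rw [Fin.sum_univ_succ, h5 g]
    have : perm (K1 0) g = 1 := perm_bot g
    rw [this]
    rfl)
  rw [Fin.sum_univ_succ] at b1 b2
  have e0 : K1 0 = ⊥ := rfl
  rw [e0, T.bc_bot] at b1 b2
  have c1 : ∑ a, T.sel (T.bc x (K a)) = ∑ a, T.ord (T.bc x (K a)) :=
    Finset.sum_congr rfl fun a _ => h3 a
  have c2 : ∑ b : Fin n', T.sel (T.bc x (K1 b.succ)) = ∑ b : Fin n', T.ord (T.bc x (K1 b.succ)) :=
    Finset.sum_congr rfl fun b _ => h4 b
  unfold Triples.Formula
  omega

/-- **The Bloch–Kato rank formula and split base change.** Let `N ≥ 0` and let `F` be a number field.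
There are finitely many Galois number fields `K₁, ..., K_r`, totally real, of degree at least `N`,
with commutative Galois groups of exponent `2` or `3`, with `K_a ∩ F = ℚ`, in which all primes `p ≤ N`
split completely, such that for all `(F', g, λ)` with `F'` contained in `F`: the rank formula for the
base changes of `g` to the totally real fields `F'K₁, ..., F'K_r` implies the rank formula for `g`.
Hence the rank formula for all `(F', g, λ)` is equivalent to its case for the base changes to `F'K`,
`K` a field as above for `F = F'`. -/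
theorem result (N : ℕ) :
    (∀ F : IntermediateField ℚ Qb, NumberField F → ∃ (r : ℕ) (K : Fin r → IntermediateField ℚ Qb),
      (∀ a, SplitReal N F (K a)) ∧ Suffices F K) ∧
    ∀ T : Triples, (∀ x, T.Formula x) ↔ ∀ x K, SplitReal N (T.fld x) K → T.Formula (T.bc x K) := by
  have key : ∀ F : IntermediateField ℚ Qb, NumberField F →
      ∃ (r : ℕ) (K : Fin r → IntermediateField ℚ Qb), (∀ a, SplitReal N F (K a)) ∧
        Suffices F K := by
    intro F hF
    obtain ⟨n, K, n', K', h3, h4, h5⟩ := trivial_character N F hF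
    refine ⟨n + n', Fin.append K K', fun a => ?_, ?_⟩
    · refine Fin.addCases (fun i => ?_) (fun i => ?_) a
      · rw [Fin.append_left]; exact h3 i
      · rw [Fin.append_right]; exact h4 i
    · intro T x hx hc
      refine main T x (fun a => adm_of (h3 a) hx) (fun b => adm_of (h4 b) hx) h5 (fun a => ?_)
        (fun b => ?_)
      · have := hc (Fin.castAdd n' a)
        rwa [Fin.append_left] at this
      · have := hc (Fin.natAdd n b)
        rwa [Fin.append_right] at this
  refine ⟨key, fun T => ⟨fun H x K _ => H _, fun H x => ?_⟩⟩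
  obtain ⟨r, K, h1, h2⟩ := key (T.fld x) (T.nf x)
  exact h2 T x le_rfl fun a => H x (K a) (h1 a)

end Pool.Agent.Results.MP_6e2fc3_nt.SplitBaseChange
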